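import Pool.Agent.H213R3.MC.Final

set_option autoImplicit false

/-!
# An extension of ZFC with a model companion but no absolute model companion

Let `W2` be the universe of sets and `W1` the least Grothendieck universe.  `S` is the set of all
sentences true in both.  Let `χ(y)` be a formula that expresses that `y` is a Grothendieck universe, and
let `A` consist of `D₀` and of the formulas `χ(x_0) ∧ ψ(x_1, …, x_n)`.  Adding `S`-wise the complete
theory of `W2` gives the model companion of `S + T_{∈,A}`: in it some element satisfies `χ`, so all
formulas are preserved by embeddings, and each model of `S + T_{∈,A}` has the same universal theory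
as it, because `W1` embeds in `W2` for the signature `∈_A` (no element of `W1` satisfies `χ`, and
`W1` is a transitive submodel).  There is no absolute model companion, because it would have a model
in which nothing satisfies `χ` and embeddings of this model in models in which something does.
-/

namespace Pool.Agent.Results.MP_918dbb_lc.NoAMC

open FirstOrder FirstOrder.Language Pool.Agent.H213R3.MC

universe w

theorem result :
    ∃ (S : LSet.Theory) (A : Set (Form LSet × Fin 2)),
      ZFC ⊆ S ∧ S.IsSatisfiable ∧ D₀ ⊆ A ∧
        (∃ T : (ext LSet A).Theory, IsModelCompanion.{w} T (plus S A)) ∧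
        ¬ ∃ T : (ext LSet A).Theory, IsAMC.{w} T (plus S A) := by
  refine ⟨SS, AA, zfc_sub_SS, ?_, ?_, ⟨TT, TT_companion⟩, ?_⟩
  · have : W2 ⊨ SS := ⟨fun σ hσ => hσ.2⟩
    exact Theory.Model.isSatisfiable W2
  · exact Set.subset_union_left
  · rintro ⟨T, hT⟩
    exact not_AMC T hT

end Pool.Agent.Results.MP_918dbb_lc.NoAMC
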